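import Pool.Agent.H59.SLF.Gtr
import Pool.Agent.H92.M5.Crad

/-!
# CRAD in the skeleton of the slope law

`crd_thm : FRF S → CRD S`: in the row of a good block the static box of the radius `a` is a
function of the static box of the radius `a' ≥ a`, up to `ε ((a' - a) + x)` mesh units.
-/

set_option autoImplicit false

namespace Pool.SLF

open Finset Real
open Pool.Agent.H49.Ent Pool.Agent.H32.Dense Pool.STK Pool.KA Pool.KSAT Pool.K2S Pool.PB
open Pool.KAF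

variable {k J : ℕ}

theorem CH_tri {Ω S T U : Type} [Fintype Ω] {p : Ω → ℝ} (hp : ∀ ω, 0 ≤ p ω) (X : Ω → S)
    (Y : Ω → T) (Z : Ω → U) : CH p X Z ≤ CH p X Y + CH p Y Z := by
  have h1 := CH_le_add hp X Y Z
  have h2 : CH p X (fun ω => (Y ω, Z ω)) ≤ CH p X Y :=
    CH_mono_cond hp fun ω ω' _ _ h => (Prod.ext_iff.1 h).1
  linarith only [h1, h2]

/-- **(CRD)** The static box of a smaller radius (a larger cell), in the same row. -/
def CRD (S : FCl (k + 1)) : Prop :=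
  ∀ (c h₁ X : ℝ) (K : ℕ) (ε : ℝ), 0 < c → c ≤ 1 → 0 < h₁ → 0 < X → 1 ≤ K → 0 < ε →
    ∃ B₂ : ℕ, 1 ≤ B₂ ∧ ∀ B₁ ≥ B₂, ∃ B₀ : ℕ, ∀ B ≥ B₀, ∃ L₁ : ℕ, ∀ L ≥ L₁, ∀ N x : ℕ,
    B₂ * L ≤ x → x ≤ B₁ * L →
    ∀ (i₁ : Fin (k + 1)) (ρ R a a' : ℕ), a ≤ a' → a' ≤ R + 3 → a' ≤ ρ → R + B * L ≤ ρ →
    (ρ : ℝ) + X * N ≤ N →
    Clg S (fun J F A => Ch F i₁ ⌊h₁ * J⌋₊ A → Pls F c N ρ A → GC F c N L B R A →
      ∀ (p : ℕ → ℕ → ℕ) (d : Dts F), d.OK i₁ N ρ K p A → Gap p R (B * L) a →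
      CH (Qa F A) (bxs F i₁ N ρ K d R a 0) (bxs F i₁ N ρ K d R a' 0) ≤
        ε * ((((a' - a) + x) * (J / N) : ℕ) : ℝ))

/-- The gap condition passes to larger radii. -/
theorem Gap.mono {F : Fam (k + 1) J} {d : Dts F} {i₁ : Fin (k + 1)} {N ρ K : ℕ}
    {p : ℕ → ℕ → ℕ} {A : F.Ω → Prop} (hd : d.OK i₁ N ρ K p A) {R s a a' : ℕ} (h : Gap p R s a)
    (ha : a ≤ a') (ha' : a' ≤ ρ) : Gap p R s a' :=
  ⟨h.1.trans ha, h.2.trans (hd.mo _ _ _ _ (Nat.sub_le_sub_right ha s)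
    ((Nat.sub_le _ _).trans ha') (Nat.sub_le_sub_right ha s) le_rfl)⟩

/-- The precision of the germ at the radius itself. -/
theorem Gap.le {F : Fam (k + 1) J} {d : Dts F} {i₁ : Fin (k + 1)} {N ρ K : ℕ}
    {p : ℕ → ℕ → ℕ} {A : F.Ω → Prop} (hd : d.OK i₁ N ρ K p A) {R s a : ℕ} (h : Gap p R s a)
    (ha : a ≤ ρ) : R + s ≤ p a a :=
  h.2.trans (hd.mo _ _ _ _ (Nat.sub_le _ _) ha (Nat.sub_le _ _) le_rfl)

theorem crd_thm {S : FCl (k + 1)} (hFR : FRF S) : CRD S := by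
  intro c h₁ X K ε hc hc1 hh₁ hX hK hε
  have hKr : (1 : ℝ) ≤ K := by exact_mod_cast hK
  have hε' : 0 < ε / (4 * K) := by positivity
  obtain ⟨B₂, hB₂, h1⟩ := hFR c h₁ X K (ε / (4 * K)) hc hc1 hh₁ hX hK hε'
  refine ⟨B₂, hB₂, fun B₁ hB₁ => ?_⟩
  obtain ⟨B₀, h2⟩ := h1 B₁ hB₁
  refine ⟨max B₀ B₁, fun B hB => ?_⟩
  obtain ⟨L₁, h3⟩ := h2 B ((le_max_left _ _).trans hB)
  refine ⟨max L₁ K, fun L hL N x hx1 hx2 i₁ ρ R a a' ha hR3 haρ hRρ hXN => ?_⟩
  obtain ⟨C₁, hC₁, hcr⟩ := SLP.Crd.crad (k + 1) K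
  obtain ⟨C₂, hC₂, hgt⟩ := own_gtr k K
  have hBB₁ : B₁ ≤ B := (le_max_right _ _).trans hB
  have hLK : K ≤ L := (le_max_right _ _).trans hL
  have hL0 : 0 < L := by omega
  have hxL : L ≤ x := (Nat.le_mul_of_pos_left L hB₂).trans hx1
  have hxK : K ≤ x := hLK.trans hxL
  have hx0 : 0 < x := by omega
  have hxB : x ≤ B * L := hx2.trans (Nat.mul_le_mul_right L hBB₁)
  have hN0 : 0 < N := by
    rcases Nat.eq_zero_or_pos N with h | h
    · exfalso
      subst h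
      have h4 : (ρ : ℝ) ≤ 0 := by simpa using hXN
      have h5 : ρ = 0 := by
        have : (ρ : ℝ) = 0 := le_antisymm h4 (Nat.cast_nonneg ρ)
        exact_mod_cast this
      omega
    · exact h
  obtain ⟨s, hs⟩ : ∃ s, s = x / K := ⟨_, rfl⟩
  have hs1 : 1 ≤ s := by
    rw [hs, Nat.le_div_iff_mul_le (by omega)]
    omega
  have hsK : K * s ≤ x := by
    rw [hs]
    exact Nat.mul_div_le x K
  have hs2 : x < K * (s + 1) := by
    rw [hs]
    exact Nat.lt_mul_div_succ x (by omega)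
  obtain ⟨D, hD⟩ : ∃ D, D = a' - a := ⟨_, rfl⟩
  obtain ⟨n, hn⟩ : ∃ n, n = D / s + 1 := ⟨_, rfl⟩
  have hn1n : 1 ≤ n := by
    rw [hn]
    exact Nat.le_add_left _ _
  have hnD : D ≤ n * s := by
    rw [hn]
    have := Nat.lt_div_mul_add (a := D) (b := s) hs1
    rw [add_mul, one_mul]
    exact this.le
  have hns : (n - 1) * s ≤ D := by
    rw [hn, Nat.add_sub_cancel]
    exact Nat.div_mul_le_self D s
  obtain ⟨r, hr⟩ : ∃ r : ℕ → ℕ, r = fun j => a + (D - j * s) := ⟨_, rfl⟩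
  have hr0 : r 0 = a' := by
    rw [hr, hD]
    simp only
    omega
  have hrn : r n = a := by
    rw [hr]
    simp only
    omega
  have hra : ∀ j, a ≤ r j := by
    intro j
    rw [hr]
    exact Nat.le_add_right _ _
  have hra' : ∀ j, r j ≤ a' := by
    intro j
    rw [hr, hD]
    simp only
    omega
  have hrs : ∀ j, r (j + 1) ≤ r j ∧ r j - r (j + 1) ≤ s := by
    intro j
    rw [hr]
    simp only
    rw [add_mul, one_mul]
    constructor <;> omega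
  obtain ⟨C, hC⟩ : ∃ C, C = C₁ + 2 * C₂ := ⟨_, rfl⟩
  have hC0 : 0 ≤ C := by rw [hC]; positivity
  obtain ⟨u₀, hu₀⟩ := exists_nat_gt (4 * C / ε)
  have hlaw : Clg S (fun _ F A => IsLaw (Qa F A)) :=
    Clg.of one_pos 0 fun _ _ F _ hS =>
      isLaw_cond F.isLaw (lt_of_lt_of_le (Real.exp_pos _) hS.2)
  have hall := Clg.all n (fun j _ => h3 L ((le_max_left _ _).trans hL) N x hx1 hx2 i₁ ρ R (r j)
    ((hra' j).trans hR3) ((hra' j).trans haρ) hRρ hXN)
  refine Clg.mono (J₂ := N * u₀) (hall.and hlaw) ?_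
  intro J hJ F A hall' hCh hPl hGC p d hd hG
  obtain ⟨hF, hq⟩ := hall'
  have hnn := hq.nonneg
  have hqA : ∀ ω, 0 < Qa F A ω → A ω := by
    intro ω hω
    have := ((cond_pos_iff F.isLaw.nonneg A True ω).1 hω).2
    rw [this]
    trivial
  obtain ⟨u, hu⟩ : ∃ u, u = J / N := ⟨_, rfl⟩
  have huu : u₀ ≤ u := by
    rw [hu, Nat.le_div_iff_mul_le hN0, mul_comm]
    exact hJ
  -- the steps
  have key : ∀ j < n, CH (Qa F A) (shg F i₁ N ρ K d R a (r j) (x * (J / N)))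
      (bxg F i₁ N ρ K d R a (r j) 0) ≤ ε / (4 * K) * ((x * (J / N) : ℕ) : ℝ) + 2 * C₂ := by
    intro j hj
    have hGj := Gap.mono hd hG (hra j) ((hra' j).trans haρ)
    have h4 := hF j hj hCh hPl hGC p d hd hGj
    have hpa := Gap.le hd hG (ha.trans haρ)
    obtain ⟨k1, -, -, -⟩ := hgt J F d i₁ N ρ p A (Qa F A) R a (r j) (r j) (x * (J / N)) hd hq
      hqA (hra j) le_rfl ((hra' j).trans haρ) (by
        rw [← add_mul]
        exact Nat.mul_le_mul_right _ (by omega))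
    obtain ⟨-, -, -, k2⟩ := hgt J F d i₁ N ρ p A (Qa F A) R a (r j) (r j) 0 hd hq
      hqA (hra j) le_rfl ((hra' j).trans haρ) (by
        rw [add_zero]
        exact Nat.mul_le_mul_right _ (by omega))
    have k3 := CH_tri hnn (shg F i₁ N ρ K d R a (r j) (x * (J / N)))
      (shg F i₁ N ρ K d R (r j) (r j) (x * (J / N))) (bxg F i₁ N ρ K d R a (r j) 0)
    have k4 := CH_tri hnn (shg F i₁ N ρ K d R (r j) (r j) (x * (J / N)))
      (bxg F i₁ N ρ K d R (r j) (r j) 0) (bxg F i₁ N ρ K d R a (r j) 0)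
    have k5 : CH (Qa F A) (shg F i₁ N ρ K d R (r j) (r j) (x * (J / N)))
      (bxg F i₁ N ρ K d R (r j) (r j) 0) ≤ ε / (4 * K) * ((x * (J / N) : ℕ) : ℝ) := h4
    linarith only [k1, k2, k3, k4, k5]
  have h5 := hcr F i₁ (Qa F A) (own F N ρ d a) (R * (J / N)) (x * (J / N)) n
    (fun j => (r j + 2) * (J / N)) hq (fun ω _ => hd.dG _ _) (by
      intro j _
      obtain ⟨e1, e2⟩ := hrs j
      have e0 : r (j + 1) + 2 ≤ r j + 2 := by omega
      refine ⟨Nat.mul_le_mul_right _ e0, ?_⟩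
      show K * ((r j + 2) * (J / N) - (r (j + 1) + 2) * (J / N)) ≤ x * (J / N)
      have e3 : (r j + 2) * (J / N) - (r (j + 1) + 2) * (J / N) =
          (r j - r (j + 1)) * (J / N) := by
        rw [← Nat.sub_mul]
        congr 1
        omega
      rw [e3, ← mul_assoc]
      exact Nat.mul_le_mul_right _ ((Nat.mul_le_mul_left K e2).trans hsK))
  simp only [hrn, hr0] at h5
  have h6 : CH (Qa F A) (bxg F i₁ N ρ K d R a a 0) (bxg F i₁ N ρ K d R a a' 0) ≤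
      ∑ j ∈ range n, (CH (Qa F A) (shg F i₁ N ρ K d R a (r j) (x * (J / N)))
        (bxg F i₁ N ρ K d R a (r j) 0) + C₁) := h5
  have h7 : ∑ j ∈ range n, (CH (Qa F A) (shg F i₁ N ρ K d R a (r j) (x * (J / N)))
        (bxg F i₁ N ρ K d R a (r j) 0) + C₁) ≤
      n * (ε / (4 * K) * ((x * (J / N) : ℕ) : ℝ) + C) := by
    refine (Finset.sum_le_sum (g := fun _ => ε / (4 * K) * ((x * (J / N) : ℕ) : ℝ) + C)
      fun j hj => ?_).trans ?_
    · have := key j (Finset.mem_range.1 hj)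
      rw [hC]
      linarith only [this]
    · rw [Finset.sum_const, Finset.card_range, nsmul_eq_mul]
  have hpa := Gap.le hd hG (ha.trans haρ)
  obtain ⟨-, -, k2, -⟩ := hgt J F d i₁ N ρ p A (Qa F A) R a a' a' 0 hd hq
    hqA ha le_rfl haρ (by
      rw [add_zero]
      exact Nat.mul_le_mul_right _ (by omega))
  have h8 := CH_tri hnn (bxg F i₁ N ρ K d R a a 0) (bxg F i₁ N ρ K d R a a' 0)
    (bxg F i₁ N ρ K d R a' a' 0)
  have h9 : CH (Qa F A) (bxs F i₁ N ρ K d R a 0) (bxs F i₁ N ρ K d R a' 0) ≤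
      n * (ε / (4 * K) * ((x * (J / N) : ℕ) : ℝ) + C) + C := by
    have h10 : CH (Qa F A) (bxs F i₁ N ρ K d R a 0) (bxs F i₁ N ρ K d R a' 0) ≤
        CH (Qa F A) (bxg F i₁ N ρ K d R a a 0) (bxg F i₁ N ρ K d R a a' 0) +
        CH (Qa F A) (bxg F i₁ N ρ K d R a a' 0) (bxg F i₁ N ρ K d R a' a' 0) := h8
    have h11 : C₂ ≤ C := by rw [hC]; linarith only [hC₁, hC₂]
    linarith only [hC₁, hC₂, hC, h6, h7, k2, h10]
  refine h9.trans ?_
  -- the estimate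
  rw [← hD, ← hu]
  have hur : (u₀ : ℝ) ≤ u := by exact_mod_cast huu
  have hCu : 4 * C ≤ ε * u := by
    rw [div_lt_iff₀ hε] at hu₀
    have : ε * u₀ ≤ ε * u := mul_le_mul_of_nonneg_left hur hε.le
    linarith only [hu₀, this]
  have hx0r : (1 : ℝ) ≤ x := by exact_mod_cast hx0
  have hs1r : (1 : ℝ) ≤ s := by exact_mod_cast hs1
  have hs2r : (x : ℝ) ≤ K * (s + 1) := by exact_mod_cast hs2.le
  have hs3r : (x : ℝ) ≤ 2 * K * s := by
    have : (K : ℝ) * (s + 1) ≤ K * (s + s) := mul_le_mul_of_nonneg_left (by linarith only [hs1r]) (by linarith only [hKr])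
    linarith only [hs2r, this]
  have hn1 : (1 : ℝ) ≤ n := by
    exact_mod_cast hn1n
  have hnsr : ((n : ℝ) - 1) * s ≤ D := by
    have h12 : (((n - 1 : ℕ) : ℝ)) * s ≤ D := by exact_mod_cast hns
    rw [Nat.cast_sub hn1n] at h12
    push_cast at h12
    exact h12
  have hnx : (n : ℝ) * x ≤ 2 * K * D + x := by
    have h12 : ((n : ℝ) - 1) * x ≤ (n - 1) * (2 * K * s) :=
      mul_le_mul_of_nonneg_left hs3r (by linarith only [hn1])
    have h13 : ((n : ℝ) - 1) * (2 * K * s) = 2 * K * ((n - 1) * s) := by ring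
    have h14 : 2 * K * (((n : ℝ) - 1) * s) ≤ 2 * K * D :=
      mul_le_mul_of_nonneg_left hnsr (by positivity)
    linarith only [h12, h14]
  have hnD' : (n : ℝ) ≤ D + 1 := by
    have h12 : ((n : ℝ) - 1) * 1 ≤ (n - 1) * s :=
      mul_le_mul_of_nonneg_left hs1r (by linarith only [hn1])
    linarith only [hnsr, h12]
  have hD0 : (0 : ℝ) ≤ D := Nat.cast_nonneg D
  have hu0 : (0 : ℝ) ≤ u := Nat.cast_nonneg u
  have e1 : (n : ℝ) * (ε / (4 * K) * ((x * u : ℕ) : ℝ) + C) + C =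
      ε / (4 * K) * u * (n * x) + (n + 1) * C := by
    push_cast
    ring
  rw [e1]
  have e2 : ε / (4 * K) * u * (n * x) ≤ ε / 2 * ((D + x) * u) := by
    have h12 : ε / (4 * K) * u * (n * x) ≤ ε / (4 * K) * u * (2 * K * (D + x)) := by
      refine mul_le_mul_of_nonneg_left ?_ (by positivity)
      have h13 : (x : ℝ) ≤ 2 * K * x := by nlinarith only [hKr]
      linarith only [hnx, h13]
    refine h12.trans (le_of_eq ?_)
    field_simp
    ring
  have e3 : ((n : ℝ) + 1) * C ≤ ε / 2 * ((D + x) * u) := by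
    have h12 : ((n : ℝ) + 1) * C ≤ (2 * (D + x)) * C :=
      mul_le_mul_of_nonneg_right (by linarith only [hx0r, hnD']) hC0
    have h13 : (2 * ((D : ℝ) + x)) * C = (D + x) / 2 * (4 * C) := by ring
    have h14 : ((D : ℝ) + x) / 2 * (4 * C) ≤ (D + x) / 2 * (ε * u) :=
      mul_le_mul_of_nonneg_left hCu (by positivity)
    have h15 : ((D : ℝ) + x) / 2 * (ε * u) = ε / 2 * ((D + x) * u) := by ring
    linarith only [h12, h14]
  push_cast
  linarith only [e2, e3]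

end Pool.SLF
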