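import Pool.Agent.H71.SLP.Stmts
import Pool.Agent.H59.M5.Mk
import Pool.Agent.H7.SLP.H5N

/-!
# Transfer of static boxes and shapes between the germs of different radii
-/

set_option autoImplicit false

namespace Pool.SLP

open Finset Real MvPolynomial
open Pool.Agent.H49.Ent Pool.Agent.H32.Dense Pool.STK Pool.KAF Pool.KA Pool.KSAT Pool.K2S
open Pool.PB Pool.SLO Pool.KAL

variable {m J : ℕ}

/-- Two germs are close on the static cell, at the exact time. -/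
def Clc (F : Fam m J) (i₁ : Fin m) (a Q : ℕ) (C₀ : ℝ) (G G' : F.Ω → MvPolynomial (Fin m) ℝ)
    (ω : F.Ω) : Prop :=
  ∀ y : Fin m → ℝ, (∀ i, 0 ≤ y i ∧ y i ≤ 1) →
    |eval y (cpl F i₁ a G ω) - eval y (cpl F i₁ a G' ω)| ≤ C₀ / 2 ^ Q

theorem Clc.symm {F : Fam m J} {i₁ : Fin m} {a Q : ℕ} {C₀ : ℝ}
    {G G' : F.Ω → MvPolynomial (Fin m) ℝ} {ω : F.Ω} (h : Clc F i₁ a Q C₀ G G' ω) :
    Clc F i₁ a Q C₀ G' G ω := by
  intro y hy
  rw [abs_sub_comm]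
  exact h y hy

/-- The coefficients of two germs which are close on the cell. -/
theorem clc_coeff (m K : ℕ) : ∃ C : ℝ, 1 ≤ C ∧ ∀ (J : ℕ) (F : Fam m J) (i₁ : Fin m) (a Q : ℕ)
    (C₀ : ℝ) (G G' : F.Ω → MvPolynomial (Fin m) ℝ) (ω : F.Ω), (G ω).totalDegree ≤ K →
    (G' ω).totalDegree ≤ K → Clc F i₁ a Q C₀ G G' ω → ∀ al,
      |coeff al (cpl F i₁ a G ω) - coeff al (cpl F i₁ a G' ω)| ≤ C * (C₀ / 2 ^ Q) := by
  obtain ⟨C, hC, hcoef⟩ := coef_cube m K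
  refine ⟨C, hC, ?_⟩
  intro J F i₁ a Q C₀ G G' ω hG hG' hcl al
  have key : coefSum (cpl F i₁ a G ω - cpl F i₁ a G' ω) ≤ C * (C₀ / 2 ^ Q) := by
    refine hcoef _ _ (fun _ => 0) ?_ (fun _ => by norm_num) ?_
    · exact (totalDegree_sub _ _).trans (max_le ((totalDegree_cpl_le F i₁ a G ω).trans hG)
        ((totalDegree_cpl_le F i₁ a G' ω).trans hG'))
    · intro y hy
      rw [map_sub]
      refine hcl y fun i => ?_
      have := hy i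
      constructor <;> linarith [this.1, this.2]
  have h1 := (abs_coeff_le (cpl F i₁ a G ω - cpl F i₁ a G' ω) al).trans key
  rw [coeff_sub] at h1
  exact h1

/-- The digits of two samples with the same digits of the second germ. -/
theorem hz_two {F : Fam m J} {i₁ : Fin m} {a Q : ℕ} {M : ℝ}
    {G G' : F.Ω → MvPolynomial (Fin m) ℝ} {ω ω' : F.Ω} {al : Fin m →₀ ℕ}
    (h : |coeff al (cpl F i₁ a G ω) - coeff al (cpl F i₁ a G' ω)| ≤ M / 2 ^ Q)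
    (h' : |coeff al (cpl F i₁ a G ω') - coeff al (cpl F i₁ a G' ω')| ≤ M / 2 ^ Q)
    (e : SLO.hz Q (cpl F i₁ a G' ω) al = SLO.hz Q (cpl F i₁ a G' ω') al) :
    |((SLO.hz Q (cpl F i₁ a G ω) al - SLO.hz Q (cpl F i₁ a G ω') al : ℤ) : ℝ)| ≤
      2 * M + 2 := by
  have hpp : (0 : ℝ) < 2 ^ Q := by positivity
  unfold SLO.hz at e ⊢
  have h2 := Pool.OCT.floor_eq_near e
  rw [← mul_sub, abs_mul, abs_of_pos hpp] at h2
  have h3 : |coeff al (cpl F i₁ a G' ω) - coeff al (cpl F i₁ a G' ω')| ≤ 1 / 2 ^ Q := by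
    rw [le_div_iff₀ hpp, mul_comm]
    exact h2
  have h4 := Pool.OCT.floor_diff (L := 2 * M + 1) (r := 2 ^ Q * coeff al (cpl F i₁ a G ω))
    (r' := 2 ^ Q * coeff al (cpl F i₁ a G ω')) (by
      rw [← mul_sub, abs_mul, abs_of_pos hpp]
      have h5 : |coeff al (cpl F i₁ a G ω) - coeff al (cpl F i₁ a G ω')| ≤
          (2 * M + 1) / 2 ^ Q := by
        have e1 : (2 * M + 1) / 2 ^ Q = M / 2 ^ Q + M / 2 ^ Q + 1 / 2 ^ Q := by ring
        rw [e1, abs_le]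
        rw [abs_le] at h h' h3
        constructor <;> linarith [h.1, h.2, h'.1, h'.2, h3.1, h3.2]
      calc (2 : ℝ) ^ Q * |coeff al (cpl F i₁ a G ω) - coeff al (cpl F i₁ a G ω')| ≤
          2 ^ Q * ((2 * M + 1) / 2 ^ Q) := mul_le_mul_of_nonneg_left h5 hpp.le
        _ = 2 * M + 1 := by field_simp)
  refine h4.trans (le_of_eq ?_)
  ring

/-- **Transfer of the shapes.** -/
theorem sc_gtr (m K : ℕ) (C₀ : ℝ) (hC₀ : 0 ≤ C₀) : ∃ C : ℝ, 0 ≤ C ∧ ∀ (J : ℕ) (F : Fam m J)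
    (i₁ : Fin m) (a P s : ℕ) (q : F.Ω → ℝ) (G G' : F.Ω → MvPolynomial (Fin m) ℝ), IsLaw q →
    (∀ ω, 0 < q ω → (G ω).totalDegree ≤ K ∧ (G' ω).totalDegree ≤ K ∧
      Clc F i₁ a (P + s) C₀ G G' ω) →
    CH q (Sc F i₁ a P K G s) (Sc F i₁ a P K G' s) ≤ C := by
  classical
  obtain ⟨C, hC, hcl⟩ := clc_coeff m K
  have hl : 0 ≤ Real.log (2 * (2 * (C * C₀) + 2) + 1) := Real.log_nonneg (by
    have : 0 ≤ C * C₀ := by positivity
    linarith)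
  refine ⟨(mons m K).card * Real.log (2 * (2 * (C * C₀) + 2) + 1), by positivity, ?_⟩
  intro J F i₁ a P s q G G' hq h
  refine ch_mons hq (mons m K) (Sc F i₁ a P K G s) _ _ _ ?_ ?_
  · intro ω ω' hω hω' hh al hal
    obtain ⟨g1, g2, g3⟩ := h ω hω
    obtain ⟨g1', g2', g3'⟩ := h ω' hω'
    have k1 := hcl J F i₁ a (P + s) C₀ G G' ω g1 g2 g3 al
    have k2 := hcl J F i₁ a (P + s) C₀ G G' ω' g1' g2' g3' al
    rw [← mul_div_assoc] at k1 k2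
    have k3 := congrFun hh al
    unfold Sc at k3 ⊢
    by_cases h2 : al ∈ mons m K ∧ al ≠ 0
    · rw [if_pos h2, if_pos h2] at k3 ⊢
      exact hz_two k1 k2 k3
    · rw [if_neg h2, if_neg h2, sub_self, Int.cast_zero, abs_zero]
      positivity
  · intro ω ω' _ _ _ hh
    funext al
    by_cases h2 : al ∈ mons m K
    · exact hh al h2
    · unfold Sc
      rw [if_neg (fun h3 => h2 h3.1), if_neg (fun h3 => h2 h3.1)]

theorem bxs_hz {F : Fam m J} {i₁ : Fin m} {a e K r : ℕ} {G : F.Ω → MvPolynomial (Fin m) ℝ}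
    {ω ω' : F.Ω} (h : bxs F i₁ a e K G r ω = bxs F i₁ a e K G r ω') :
    F.W ω = F.W ω' ∧ tdg i₁ a F.x ω = tdg i₁ a F.x ω' ∧ ∀ al ∈ mons m K,
      SLO.hz (e + r) (cpl F i₁ a G ω) al = SLO.hz (e + r) (cpl F i₁ a G ω') al := by
  unfold bxs sbx at h
  have h1 := Prod.ext_iff.1 h
  have h2 := Prod.ext_iff.1 h1.2
  have h3 := Prod.ext_iff.1 h2.2
  refine ⟨h1.1, h2.1, fun al hal => ?_⟩
  by_cases h0 : al = 0
  · subst h0
    have h4 : ⌊(2 : ℝ) ^ (e + r) * gfn F i₁ G ω (tco i₁ a F.x ω)⌋ =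
      ⌊(2 : ℝ) ^ (e + r) * gfn F i₁ G ω' (tco i₁ a F.x ω')⌋ := h3.1
    rw [hgt_hz, hgt_hz] at h4
    exact h4
  · have h4 : Sc F i₁ a e K G r ω = Sc F i₁ a e K G r ω' := h3.2
    have h5 := congrFun h4 al
    unfold Sc at h5
    rw [if_pos ⟨hal, h0⟩, if_pos ⟨hal, h0⟩] at h5
    exact h5

/-- **Transfer of the static boxes.** -/
theorem bxs_gtr (m K : ℕ) (C₀ : ℝ) (hC₀ : 0 ≤ C₀) : ∃ C : ℝ, 0 ≤ C ∧ ∀ (J : ℕ) (F : Fam m J)
    (i₁ : Fin m) (a P s : ℕ) (q : F.Ω → ℝ) (G G' : F.Ω → MvPolynomial (Fin m) ℝ), IsLaw q →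
    (∀ ω, 0 < q ω → (G ω).totalDegree ≤ K ∧ (G' ω).totalDegree ≤ K ∧
      Clc F i₁ a (P + s) C₀ G G' ω) →
    CH q (bxs F i₁ a P K G s) (bxs F i₁ a P K G' s) ≤ C := by
  classical
  obtain ⟨C, hC, hcl⟩ := clc_coeff m K
  have hl : 0 ≤ Real.log (2 * (2 * (C * C₀) + 2) + 1) := Real.log_nonneg (by
    have : 0 ≤ C * C₀ := by positivity
    linarith)
  refine ⟨(mons m K).card * Real.log (2 * (2 * (C * C₀) + 2) + 1), by positivity, ?_⟩
  intro J F i₁ a P s q G G' hq h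
  refine ch_mons hq (mons m K) (fun ω => SLO.hz (P + s) (cpl F i₁ a G ω)) _ _ _ ?_ ?_
  · intro ω ω' hω hω' hh al hal
    obtain ⟨g1, g2, g3⟩ := h ω hω
    obtain ⟨g1', g2', g3'⟩ := h ω' hω'
    have k1 := hcl J F i₁ a (P + s) C₀ G G' ω g1 g2 g3 al
    have k2 := hcl J F i₁ a (P + s) C₀ G G' ω' g1' g2' g3' al
    rw [← mul_div_assoc] at k1 k2
    exact hz_two k1 k2 ((bxs_hz hh).2.2 al hal)
  · intro ω ω' _ _ hh hf
    obtain ⟨e1, e2, -⟩ := bxs_hz hh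
    exact bxs_of_hz F i₁ a P K G s e1 e2 hf

/-- **Transfer of the shape given the static box.** -/
theorem shape_gtr (m K : ℕ) (C₀ : ℝ) (hC₀ : 0 ≤ C₀) : ∃ C : ℝ, 0 ≤ C ∧ ∀ (J : ℕ) (F : Fam m J)
    (i₁ : Fin m) (a P s : ℕ) (q : F.Ω → ℝ) (G G' : F.Ω → MvPolynomial (Fin m) ℝ), IsLaw q →
    (∀ ω, 0 < q ω → (G ω).totalDegree ≤ K ∧ (G' ω).totalDegree ≤ K ∧
      Clc F i₁ a (P + s) C₀ G G' ω) →
    CH q (Sc F i₁ a P K G s) (bxs F i₁ a P K G 0) ≤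
      CH q (Sc F i₁ a P K G' s) (bxs F i₁ a P K G' 0) + C := by
  obtain ⟨C₁, hC₁, h1⟩ := sc_gtr m K C₀ hC₀
  obtain ⟨C₂, hC₂, h2⟩ := bxs_gtr m K C₀ hC₀
  refine ⟨C₁ + C₂, by positivity, ?_⟩
  intro J F i₁ a P s q G G' hq h
  have hnn := hq.nonneg
  have tri : ∀ {S T U : Type} (X : F.Ω → S) (Y : F.Ω → T) (Z : F.Ω → U),
      CH q X Z ≤ CH q X Y + CH q Y Z := by
    intro S T U X Y Z
    have e1 := CH_le_add hnn X Y Z
    have e2 : CH q X (fun ω => (Y ω, Z ω)) ≤ CH q X Y :=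
      CH_mono_cond hnn fun ω ω' _ _ h => (Prod.ext_iff.1 h).1
    linarith
  have k1 := h1 J F i₁ a P s q G G' hq h
  have k2 := h2 J F i₁ a P 0 q G' G hq (fun ω hω => by
    obtain ⟨g1, g2, g3⟩ := h ω hω
    refine ⟨g2, g1, fun y hy => ?_⟩
    refine (g3.symm y hy).trans ?_
    exact div_le_div_of_nonneg_left hC₀ (by positivity)
      (pow_le_pow_right₀ (by norm_num) (by omega)))
  have k3 := tri (Sc F i₁ a P K G s) (Sc F i₁ a P K G' s) (bxs F i₁ a P K G 0)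
  have k4 := tri (Sc F i₁ a P K G' s) (bxs F i₁ a P K G' 0) (bxs F i₁ a P K G 0)
  linarith

end Pool.SLP

namespace Pool.SLF

open Finset Real
open Pool.Agent.H49.Ent Pool.Agent.H32.Dense Pool.STK Pool.KA Pool.KSAT Pool.K2S Pool.PB

variable {k J : ℕ}

/-- The static box with the cell of radius `a` and the germ of radius `g`. -/
noncomputable def bxg (F : Fam (k + 1) J) (i₁ : Fin (k + 1)) (N ρ K : ℕ) (d : Dts F)
    (R g a s : ℕ) (ω : F.Ω) :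
    (ℕ × F.ζ) × (Fin (k + 1) → ℤ) × ℤ × ((Fin (k + 1) →₀ ℕ) → ℤ) :=
  SLP.bxs F i₁ ((a + 2) * (J / N)) (R * (J / N)) K (own F N ρ d g) s ω

/-- The digits of the shape over the cell of radius `a`, for the germ of radius `g`. -/
noncomputable def shg (F : Fam (k + 1) J) (i₁ : Fin (k + 1)) (N ρ K : ℕ) (d : Dts F)
    (R g a s : ℕ) : F.Ω → (Fin (k + 1) →₀ ℕ) → ℤ :=
  SLP.Sc F i₁ ((a + 2) * (J / N)) (R * (J / N)) K (own F N ρ d g) s

theorem bxg_self (F : Fam (k + 1) J) (i₁ : Fin (k + 1)) (N ρ K : ℕ) (d : Dts F) (R a s : ℕ) :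
    bxg F i₁ N ρ K d R a a s = bxs F i₁ N ρ K d R a s := rfl

theorem shg_self (F : Fam (k + 1) J) (i₁ : Fin (k + 1)) (N ρ K : ℕ) (d : Dts F) (R a s : ℕ) :
    shg F i₁ N ρ K d R a a s = shs F i₁ N ρ K d R a s := rfl

/-- A point of the static cell is in the ball around the base point. -/
theorem cell_ball (F : Fam (k + 1) J) (i₁ : Fin (k + 1)) (a : ℕ) (ω : F.Ω)
    {y : Fin (k + 1) → ℝ} (hy : ∀ i, 0 ≤ y i ∧ y i ≤ 1) (j : Fin (k + 1)) :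
    |Function.update (fun i => SLP.tco i₁ a F.x ω i + 1 / 2 ^ a * y i) i₁ (F.t ω) j -
      bp F i₁ ω j| ≤ 1 / 2 ^ a := by
  by_cases hj : j = i₁
  · subst hj
    unfold bp
    rw [Function.update_self, Function.update_self, sub_self, abs_zero]
    positivity
  · unfold bp
    rw [Function.update_of_ne hj, Function.update_of_ne hj]
    have h0 : (0 : ℝ) < 2 ^ a := by positivity
    have h1 := Int.floor_le ((2 : ℝ) ^ a * F.x ω j)
    have h2 := Int.lt_floor_add_one ((2 : ℝ) ^ a * F.x ω j)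
    unfold SLP.tco SLP.tdg
    rw [if_neg hj]
    have e : (⌊(2 : ℝ) ^ a * F.x ω j⌋ : ℝ) / 2 ^ a + 1 / 2 ^ a * y j - F.x ω j =
        ((⌊(2 : ℝ) ^ a * F.x ω j⌋ : ℝ) + y j - 2 ^ a * F.x ω j) / 2 ^ a := by
      field_simp
    rw [e, abs_div, abs_of_pos h0]
    refine div_le_div_of_nonneg_right ?_ h0.le
    rw [abs_le]
    constructor <;> linarith [(hy j).1, (hy j).2]

/-- **The germs of two radii on the static cell.** -/
theorem own_clc {F : Fam (k + 1) J} {d : Dts F} {i₁ : Fin (k + 1)} {N ρ K : ℕ}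
    {p : ℕ → ℕ → ℕ} {A : F.Ω → Prop} (hd : d.OK i₁ N ρ K p A) {g g' a Q : ℕ} (hg : g ≤ g')
    (hga : g' ≤ a) (haρ : a ≤ ρ) (hQ : Q ≤ p g g * (J / N)) {ω : F.Ω} (hω : A ω) :
    SLP.Clc F i₁ ((a + 2) * (J / N)) Q 1 (own F N ρ d g) (own F N ρ d g') ω := by
  intro y hy
  rw [SLP.eval_cpl, SLP.eval_cpl]
  unfold SLP.gfn
  refine (hd.cm g g' hg (hga.trans haρ) ω hω _ (fun j => ?_)).trans ?_
  · refine (cell_ball F i₁ ((a + 2) * (J / N)) ω hy j).trans ?_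
    refine one_div_le_one_div_of_le (by positivity) ?_
    exact pow_le_pow_right₀ (by norm_num) (Nat.mul_le_mul_right _ (by omega))
  · refine one_div_le_one_div_of_le (by positivity) ?_
    exact pow_le_pow_right₀ (by norm_num) hQ

/-- **(GTR)** The transfer between the germs of two radii `g ≤ g' ≤ a`, in the cell of radius
`a`, for the shapes and the static boxes, in both directions, for all laws supported on `A`. -/
theorem own_gtr (k K : ℕ) : ∃ C : ℝ, 0 ≤ C ∧ ∀ (J : ℕ) (F : Fam (k + 1) J) (d : Dts F)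
    (i₁ : Fin (k + 1)) (N ρ : ℕ) (p : ℕ → ℕ → ℕ) (A : F.Ω → Prop) (q : F.Ω → ℝ)
    (R g g' a s : ℕ), d.OK i₁ N ρ K p A → IsLaw q → (∀ ω, 0 < q ω → A ω) → g ≤ g' → g' ≤ a →
    a ≤ ρ → R * (J / N) + s ≤ p g g * (J / N) →
    CH q (shg F i₁ N ρ K d R g a s) (shg F i₁ N ρ K d R g' a s) ≤ C ∧
    CH q (shg F i₁ N ρ K d R g' a s) (shg F i₁ N ρ K d R g a s) ≤ C ∧
    CH q (bxg F i₁ N ρ K d R g a s) (bxg F i₁ N ρ K d R g' a s) ≤ C ∧
    CH q (bxg F i₁ N ρ K d R g' a s) (bxg F i₁ N ρ K d R g a s) ≤ C := by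
  obtain ⟨C₁, hC₁, h1⟩ := SLP.sc_gtr (k + 1) K 1 zero_le_one
  obtain ⟨C₂, hC₂, h2⟩ := SLP.bxs_gtr (k + 1) K 1 zero_le_one
  refine ⟨max C₁ C₂, le_max_of_le_left hC₁, ?_⟩
  intro J F d i₁ N ρ p A q R g g' a s hd hq hqA hg hga haρ hR
  have hcl : ∀ ω, 0 < q ω → SLP.Clc F i₁ ((a + 2) * (J / N)) (R * (J / N) + s) 1
      (own F N ρ d g) (own F N ρ d g') ω := fun ω hω => own_clc hd hg hga haρ hR (hqA ω hω)
  have hdg : ∀ g₀ ω, (own F N ρ d g₀ ω).totalDegree ≤ K := fun g₀ ω => hd.dG _ _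
  refine ⟨?_, ?_, ?_, ?_⟩
  · exact (h1 J F i₁ _ _ s q _ _ hq fun ω hω => ⟨hdg g ω, hdg g' ω, hcl ω hω⟩).trans
      (le_max_left _ _)
  · exact (h1 J F i₁ _ _ s q _ _ hq fun ω hω => ⟨hdg g' ω, hdg g ω, (hcl ω hω).symm⟩).trans
      (le_max_left _ _)
  · exact (h2 J F i₁ _ _ s q _ _ hq fun ω hω => ⟨hdg g ω, hdg g' ω, hcl ω hω⟩).trans
      (le_max_right _ _)
  · exact (h2 J F i₁ _ _ s q _ _ hq fun ω hω => ⟨hdg g' ω, hdg g ω, (hcl ω hω).symm⟩).trans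
      (le_max_right _ _)

end Pool.SLF
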