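import Pool.Agent.H71.SLP.Stmts
import Pool.Agent.H59.M5.Rec

/-!
# Row MKF: the tangential positions are full given the static records

`mkf_thm : MKF S` for the classes with spread fans.
-/

set_option autoImplicit false

namespace Pool.SLF

open Finset Real
open Pool.Agent.H49.Ent Pool.Agent.H32.Dense Pool.STK Pool.KA Pool.KSAT Pool.K2S Pool.PB

variable {k J : ℕ}

/-- The entropy of the digits of the base velocity. -/
theorem cld_le (F : Fam (k + 1) J) {p : F.Ω → ℝ} (hp : IsLaw p) (i₁ : Fin (k + 1)) (q : ℕ)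
    {T : Type} (W : F.Ω → T) :
    CH p (SLO.cld F i₁ q) W ≤ k * (q * Real.log 2 + Real.log 7) := by
  have h := CH_le_vec hp.nonneg hp.sum_one
    (fun ω (j : Fin k) => SLO.cld F i₁ q ω (i₁.succAbove j)) W (fun _ => 2 * 2 ^ q + 1) (by
    intro ω ω' _ _ _ j
    have hq : (0 : ℝ) < 2 ^ q := by positivity
    have hi : i₁.succAbove j ≠ i₁ := Fin.succAbove_ne i₁ j
    unfold SLO.cld
    rw [if_neg hi, if_neg hi]
    refine SLO.floor_near ?_
    rw [← mul_sub, abs_mul, abs_of_pos hq]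
    have h1 := abs_le.1 (F.dir ω (i₁.succAbove j))
    have h2 := abs_le.1 (F.dir ω' (i₁.succAbove j))
    have h3 : |F.d ω (i₁.succAbove j) - F.d ω' (i₁.succAbove j)| ≤ 2 := by
      rw [abs_le]
      constructor <;> linarith [h1.1, h1.2, h2.1, h2.2]
    calc (2 : ℝ) ^ q * |F.d ω (i₁.succAbove j) - F.d ω' (i₁.succAbove j)| ≤ 2 ^ q * 2 :=
          mul_le_mul_of_nonneg_left h3 hq.le
      _ = 2 * 2 ^ q := by ring)
  rw [Ex_const hp.sum_one] at h
  have h0 : CH p (SLO.cld F i₁ q) W ≤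
      CH p (fun ω (j : Fin k) => SLO.cld F i₁ q ω (i₁.succAbove j)) W := by
    refine CH_mono_left hp.nonneg ?_
    intro ω ω' _ _ hh
    have e := (Prod.ext_iff.1 hh).1
    funext i
    by_cases hi : i = i₁
    · unfold SLO.cld
      rw [if_pos hi, if_pos hi]
    · obtain ⟨j, hj⟩ := Fin.exists_succAbove_eq hi
      have := congrFun e j
      simp only [hj] at this
      exact this
  refine h0.trans (h.trans (mul_le_mul_of_nonneg_left ?_ (Nat.cast_nonneg k)))
  have h1 : (1 : ℝ) ≤ 2 ^ q := one_le_pow₀ (by norm_num)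
  have h2 : 2 * (2 * 2 ^ q + 1) + 1 ≤ 7 * (2 : ℝ) ^ q := by linarith
  refine (Real.log_le_log (by positivity) h2).trans (le_of_eq ?_)
  rw [Real.log_mul (by norm_num) (by positivity), Real.log_pow]
  ring

/-- **Row MKF.** -/
theorem mkf_thm {S : FCl (k + 1)} (hs : SPS S (k + 1 - 2)) : MKF S := by
  intro c h₁ X K η hc hh₁ hX hK hη N i₁ ρ q a₀ x n hx hρ hXN
  obtain ⟨B, hB0, hB⟩ := SLO.mkf_rec (k + 1) K
  have hl7 : 0 ≤ Real.log 7 := Real.log_nonneg (by norm_num)
  have hη' : 0 < η / (2 * (n + 1)) := by positivity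
  obtain ⟨J₂, hJ₂⟩ := exists_nat_gt ((n * (B * n) + k * Real.log 7) * 2 / η)
  have hlaw : Clg S (fun _ F A => 0 < Pe F.p A) :=
    Clg.of one_pos 0 fun _ _ F _ hS => lt_of_lt_of_le (Real.exp_pos _) hS.2
  refine Clg.mono (J₂ := J₂) ((SLO.mkf_clg hs hh₁ hη').and hlaw) ?_
  intro J hJ F A hM hCh _ p d hd
  obtain ⟨hM1, hA⟩ := hM
  have hMk := hM1 i₁ hCh
  have hρN : ρ ≤ N := by
    have h1 : (0 : ℝ) ≤ X * N := by positivity
    have h2 : (ρ : ℝ) ≤ N := by linarith
    exact_mod_cast h2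
  have hρJ : ρ * (J / N) ≤ J := (Nat.mul_le_mul_right _ hρN).trans (Nat.mul_div_le J N)
  obtain ⟨u, hu⟩ : ∃ u, u = J / N := ⟨_, rfl⟩
  rw [← hu] at hρJ ⊢
  obtain ⟨a, ha⟩ : ∃ a : ℕ → ℕ, a = fun i => (a₀ + i * x + 2) * u := ⟨_, rfl⟩
  have hle : ∀ i ≤ n, a₀ + i * x + 2 ≤ ρ := by
    intro i hi
    have := Nat.mul_le_mul_right x hi
    omega
  have haJ : ∀ i ≤ n, a i ≤ J := by
    intro i hi
    rw [ha]
    exact (Nat.mul_le_mul_right u (hle i hi)).trans hρJ
  have hstep : ∀ i, a (i + 1) = a i + x * u := by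
    intro i
    rw [ha]
    simp only
    ring
  have hva : ∀ i, (a₀ + i * x) * u ≤ a i := by
    intro i
    rw [ha]
    exact Nat.mul_le_mul_right u (by omega)
  have h1 := hB J F i₁ (η / (2 * (n + 1))) A hMk hA n (ρ * u) a
    (fun i => p (a₀ + i * x) (a₀ + i * x) * u) (fun i => p (a₀ + i * x) (a₀ + i * x) * u)
    (fun i => d.G (a₀ + i * x))
    (fun i s => d.H (a₀ + i * x) ((a₀ + i * x) * u)
      (s.1, s.2.1, s.2.2 / 2 ^ (a i - (a₀ + i * x) * u))) _ (SLO.cld F i₁ (q * u)) hρJ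
    (fun i _ => by rw [hstep]; exact Nat.le_add_right _ _) haJ (fun _ _ => le_rfl)
    (fun i _ y => hd.dG _ y) (fun i _ s => hd.dH _ _ _) (by
      intro i hi ω hω b hb
      have h2 := hd.tb (a₀ + i * x) (by have := hle i hi.le; omega) (a₀ + i * x) le_rfl
        ((a₀ + i * x) * (J / N)) le_rfl le_rfl ω hω b (by
          intro j
          refine (hb j).trans ?_
          rw [← hu, ha]
          refine one_div_le_one_div_of_le (by positivity) ?_
          exact pow_le_pow_right₀ (by norm_num) (Nat.mul_le_mul_right u (by omega)))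
      rw [← hu] at h2
      have h3 := slam_coarse F (hva i) (haJ i hi.le) ω
      rw [← h3]
      unfold own at h2
      rw [← hu] at h2
      exact h2)
  have h2 := cld_le F (isLaw_cond F.isLaw hA) i₁ (q * u) (fun ω => (F.T ω,
    SLO.jn (fun k => SLO.rcd F i₁ (ρ * u) (a k) (p (a₀ + k * x) (a₀ + k * x) * u)
      (d.G (a₀ + k * x))) 0 ω))
  have key : ∀ j ∈ range n, (k * ((x * u : ℕ) : ℝ) * Real.log 2 -
      CH (Qa F A) (tpx F i₁ ((a₀ + (j + 1) * x + 2) * u))
        (fun ω => ((fun i : Fin (j + 1) => st F i₁ N ρ q d (p (a₀ + i * x) (a₀ + i * x))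
          (a₀ + i * x) ω), F.W ω))) ≤
      ((((k + 1 : ℕ) : ℝ) - 1) * (((a (j + 1) : ℝ) - a j) * Real.log 2) -
        CH (Pool.Agent.H49.Ent.cond F.p A True) (SLP.tdg i₁ (a (j + 1)) F.x)
          (fun ω => ((F.T ω, SLO.jn (fun k => SLO.rcd F i₁ (ρ * u) (a k)
            (p (a₀ + k * x) (a₀ + k * x) * u) (d.G (a₀ + k * x))) j ω),
            SLO.cld F i₁ (q * u) ω))) := by
    intro j hj
    have hj' := Finset.mem_range.1 hj
    have e1 : (((k + 1 : ℕ) : ℝ) - 1) * (((a (j + 1) : ℝ) - a j) * Real.log 2) =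
        k * ((x * u : ℕ) : ℝ) * Real.log 2 := by
      rw [hstep]
      push_cast
      ring
    rw [e1]
    have e2 : tpx F i₁ ((a₀ + (j + 1) * x + 2) * u) = SLP.tdg i₁ (a (j + 1)) F.x := by
      rw [ha]
      rfl
    rw [e2]
    have h3 : CH (Pool.Agent.H49.Ent.cond F.p A True) (SLP.tdg i₁ (a (j + 1)) F.x)
        (fun ω => ((F.T ω, SLO.jn (fun k => SLO.rcd F i₁ (ρ * u) (a k)
            (p (a₀ + k * x) (a₀ + k * x) * u) (d.G (a₀ + k * x))) j ω),
            SLO.cld F i₁ (q * u) ω)) ≤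
        CH (Qa F A) (SLP.tdg i₁ (a (j + 1)) F.x)
          (fun ω => ((fun i : Fin (j + 1) => st F i₁ N ρ q d (p (a₀ + i * x) (a₀ + i * x))
            (a₀ + i * x) ω), F.W ω)) := by
      refine CH_mono_cond (isLaw_cond F.isLaw hA).nonneg ?_
      intro ω ω' _ _ hh
      have g1 := Prod.ext_iff.1 hh
      have g2 := Prod.ext_iff.1 g1.1
      have g30 : SLO.jn (fun k => SLO.rcd F i₁ (ρ * u) (a k)
          (p (a₀ + k * x) (a₀ + k * x) * u) (d.G (a₀ + k * x))) j ω =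
          SLO.jn (fun k => SLO.rcd F i₁ (ρ * u) (a k)
          (p (a₀ + k * x) (a₀ + k * x) * u) (d.G (a₀ + k * x))) j ω' := g2.2
      have g3 := SLO.jn_eq.1 g30
      have g4 : F.Z ω = F.Z ω' :=
        (Prod.ext_iff.1 (Prod.ext_iff.1 (g3 0 (Nat.zero_le _))).1).1
      refine Prod.ext ?_ (Prod.ext g2.1 g4)
      funext i
      have g5 := g3 i (Nat.lt_succ_iff.1 i.2)
      have g6 : SLO.cld F i₁ (q * u) ω = SLO.cld F i₁ (q * u) ω' := g1.2
      unfold st
      rw [ha] at g5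
      rw [← hu]
      exact Prod.ext g5 g6
    linarith
  refine (Finset.sum_le_sum key).trans (h1.trans ?_)
  have hJr : (J₂ : ℝ) ≤ J := by exact_mod_cast hJ
  have h3 : (n * (B * n) + k * Real.log 7) * 2 / η ≤ J := hJ₂.le.trans hJr
  rw [div_le_iff₀ hη] at h3
  have h4 : (n : ℝ) * (η / (2 * (n + 1)) * J) ≤ η / 2 * J := by
    have hn : (0 : ℝ) < (n : ℝ) + 1 := by positivity
    have : (n : ℝ) * (η / (2 * (n + 1))) ≤ η / 2 := by
      rw [show (n : ℝ) * (η / (2 * (n + 1))) = η / 2 * (n / (n + 1)) by field_simp]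
      have h5 : (n : ℝ) / (n + 1) ≤ 1 := by
        rw [div_le_one hn]
        linarith
      calc η / 2 * (n / (n + 1)) ≤ η / 2 * 1 := mul_le_mul_of_nonneg_left h5 (by positivity)
        _ = η / 2 := mul_one _
    calc (n : ℝ) * (η / (2 * (n + 1)) * J) = n * (η / (2 * (n + 1))) * J := by ring
      _ ≤ η / 2 * J := mul_le_mul_of_nonneg_right this (Nat.cast_nonneg J)
  have h5 : (n : ℝ) * (B * n + η / (2 * (n + 1)) * J) = n * (B * n) +
      n * (η / (2 * (n + 1)) * J) := by ring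
  rw [h5]
  have h6 : (k : ℝ) * (((q * u : ℕ) : ℝ) * Real.log 2 + Real.log 7) =
      k * ((q * u : ℕ) : ℝ) * Real.log 2 + k * Real.log 7 := by ring
  rw [h6] at h2
  linarith

end Pool.SLF
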