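import Pool.Agent.H71.SLP.Stmts
import Pool.Agent.H59.M5.H3F

/-!
# Row YDG: the position at the time of the sample from the position in the cell
-/

set_option autoImplicit false

namespace Pool.SLF

open Finset Real
open Pool.Agent.H49.Ent Pool.Agent.H32.Dense Pool.STK Pool.KA Pool.KSAT Pool.K2S Pool.PB

theorem ydg_thm (k : ℕ) : YDG k := by
  refine ⟨(k + 1 : ℕ) * Real.log 7, ?_⟩
  intro J F i₁ p N q d R a v X hp hv hq
  have h1 := SLO.tdg_yt F hp i₁ (a := (a + 2) * (J / N)) (w := v) (q := q * (J / N)) (X := X)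
    hv hq (cx F i₁ N q d R a v) (by
      intro ω ω' _ _ hh
      have e1 := (Prod.ext_iff.1 (Prod.ext_iff.1 hh).1).1
      have e2 := Prod.ext_iff.1 e1
      exact Prod.ext e2.1 e2.2)
  refine le_trans (CH_mono_cond hp.nonneg ?_) h1
  intro ω ω' _ _ hh
  have e1 := Prod.ext_iff.1 hh
  have e2 := Prod.ext_iff.1 e1.2
  have e3 : F.T ω = F.T ω' := (Prod.ext_iff.1 e2.2).1
  exact Prod.ext e1.1 (Prod.ext e3 e2.1)

end Pool.SLF
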